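import Pool.Agent.W5h83.NF.Lim
import Pool.Agent.W5h83.SS.Defs
import Pool.Agent.TH777.Y.Forced

/-!
# No small family is dominating in the extension
-/

set_option autoImplicit false
set_option linter.unusedSectionVars false

namespace Pool.Agent.W5h83.NF

open Classical Cardinal Filter Pool.Agent.Helper669.Forcing Pool.Agent.TH777.Y
open Pool.Agent.W5h83.SS

variable {M I W : Type} {bd : I → Option (ℕ → ℕ)} [LinearOrder W] [WellFoundedLT W]
  {Γ : Par M W bd}

theorem forced_notDomAll [OrderBot W] (hG : Nice Γ) (hccc : CCC Γ) (Ω : Type) {Z : Type}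
    (lc : Z → I) (hinj : Function.Injective lc) (hrk : ∀ l, Γ.rk (lc l) = ⊥)
    (hF : ∀ F : Z → Ω × ℕ, ∃ z, ℵ₁ ≤ #↥(F ⁻¹' {z})) (p : PP Γ) :
    p ∈ NotDomAllN (PP Γ) Ω := by
  intro g
  refine mem_fimp.2 fun q hq hg => ⟨q, le_rfl, ?_⟩
  refine mem_fex.2 fun r hr => ?_
  by_contra hcon
  have hbad : ∀ l : Z, ∃ (i : Ω) (N : ℕ) (s : PP Γ), s ≤ r ∧ s ∈ fall fun n =>
      fimp (fground (N ≤ n)) (fex fun a => fex fun b =>
        fand (meets (fnN Γ (lc l) (fun _ s => s.card) n a))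
          (fand (meets (g i n b)) (fground (a ≤ b)))) := by
    intro l
    have h1 : ¬ r ∈ fall fun i => fnot (DominatesN (g i) (fnN Γ (lc l) fun _ s => s.card)) :=
      fun h => hcon ⟨r, le_rfl, fnN Γ (lc l) fun _ s => s.card, isFun_fnN _ _ r, h⟩
    rw [mem_fall] at h1
    push Not at h1
    obtain ⟨i, h1⟩ := h1
    have h2 : ∃ s ≤ r, s ∈ DominatesN (g i) (fnN Γ (lc l) fun _ s => s.card) := by
      by_contra h3
      push Not at h3
      exact h1 h3
    obtain ⟨s, hs, hD⟩ := h2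
    obtain ⟨s', hs', N, h3⟩ := mem_fex.1 hD s le_rfl
    exact ⟨i, N, s', hs'.trans hs, h3⟩
  choose i N s hs hs2 using hbad
  obtain ⟨⟨i0, N0⟩, hA⟩ := hF fun l => (i l, N l)
  obtain ⟨A, hAdef⟩ : ∃ A : Set Z, A = (fun l => (i l, N l)) ⁻¹' {(i0, N0)} := ⟨_, rfl⟩
  rw [← hAdef] at hA
  have hAi : ∀ l ∈ A, i l = i0 ∧ N l = N0 := by
    intro l hl
    rw [hAdef] at hl
    exact Prod.mk.inj hl
  obtain ⟨A1, R, hA1A, hA1, -, hd⟩ := delta_system isRegular_aleph_one aleph0_lt_aleph_one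
    (fun l => insert (lc l) (PP.toC (s l)).supp) A hA
  have hfinR : {l | l ∈ A1 ∧ lc l ∈ R}.Finite := by
    refine Set.Finite.of_finite_image (f := lc) ?_ hinj.injOn
    refine (Finset.finite_toSet R).subset ?_
    rintro _ ⟨a, ha, rfl⟩
    exact ha.2
  have hA2 : ℵ₁ ≤ #↥(A1 \ {l | l ∈ A1 ∧ lc l ∈ R}) :=
    lt_card_diff isRegular_aleph_one hA1
      ((lt_aleph0_iff_set_finite.2 hfinR).trans aleph0_lt_aleph_one)
  obtain ⟨⟨st, L0⟩, hA3⟩ := fiber_card (β := (R → List (Finset ℕ)) × ℕ) isRegular_aleph_one hA2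
    (lt_of_le_of_lt mk_le_aleph0 aleph0_lt_aleph_one)
    (fun l => ((fun r : R => (PP.toC (s l) r.1).stem), (PP.toC (s l) (lc l)).stem.length))
  obtain ⟨A3, hA3def⟩ : ∃ A3 : Set Z, A3 = {l | l ∈ A1 \ {l | l ∈ A1 ∧ lc l ∈ R} ∧
      ((fun r : R => (PP.toC (s l) r.1).stem), (PP.toC (s l) (lc l)).stem.length) =
        (st, L0)} := ⟨_, rfl⟩
  rw [← hA3def] at hA3
  have hA3' : ∀ l ∈ A3, l ∈ A1 ∧ lc l ∉ R ∧
      (∀ a ∈ R, ∀ l' ∈ A3, (PP.toC (s l) a).stem = (PP.toC (s l') a).stem) ∧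
      (PP.toC (s l) (lc l)).stem.length = L0 := by
    intro l hl
    have hl' := hl
    rw [hA3def] at hl'
    obtain ⟨⟨h1, h2⟩, h3⟩ := hl'
    refine ⟨h1, fun h => h2 ⟨h1, h⟩, fun a ha l' hl' => ?_, (Prod.mk.inj h3).2⟩
    rw [hA3def] at hl'
    obtain ⟨_, h3'⟩ := hl'
    exact (congrFun (Prod.mk.inj h3).1 ⟨a, ha⟩).trans (congrFun (Prod.mk.inj h3').1 ⟨a, ha⟩).symm
  have hinf : A3.Infinite := by
    rw [Set.infinite_coe_iff.symm, infinite_iff]
    exact aleph0_lt_aleph_one.le.trans hA3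
  obtain ⟨e⟩ : Nonempty (ℕ ↪ A3) := ⟨hinf.natEmbedding⟩
  let n := max N0 L0
  have hnN : N0 ≤ n := le_max_left _ _
  have hnL : L0 ≤ n := le_max_right _ _
  let V : ℕ → CV M := fun k => ⟨((PP.toC (s (e k)) (lc (e k))).stem ++
    List.replicate (n - L0) ∅) ++ [Finset.range k], (PP.toC (s (e k)) (lc (e k))).pr⟩
  have hleg : ∀ k b, bd (lc (e k)) = some b → Legit b (V k) := fun k b hb => by
    rw [(hG.bot _ (hrk (e k))).1] at hb
    exact absurd hb (by simp)
  let P : ℕ → Cond M bd := fun k => upd (PP.toC (s (e k))) (lc (e k)) (V k) (hleg k)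
  have hP1 : ∀ k, P k (lc (e k)) = V k := fun k => upd_same _ _ _ _
  have hP2 : ∀ k i, i ≠ lc (e k) → P k i = PP.toC (s (e k)) i := fun k i hi =>
    upd_of_ne _ _ _ hi
  have hPs : ∀ k, le Γ Set.univ (P k) (s (e k)) := by
    intro k a _
    by_cases hal : a = lc (e k)
    · subst hal
      refine ext_noreq (hG.bot _ (hrk _)).2 ?_ ?_
      · rw [hP1]
        exact (List.prefix_append _ _).trans (List.prefix_append _ _)
      · rw [hP1]
    · exact ext_of_eq (hP2 k a hal)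
  obtain ⟨q0, hq0⟩ := lim hG hccc P R.card R rfl Set.univ low_univ
    (by
      intro a _ haR k l hkl
      by_contra hcon
      push Not at hcon
      have key : ∀ k, P k a ≠ CV.top → a ∈ insert (lc (e k)) (PP.toC (s (e k))).supp := by
        intro k hk
        by_cases hal : a = lc (e k)
        · rw [hal]
          exact Finset.mem_insert_self _ _
        · rw [hP2 k a hal] at hk
          exact Finset.mem_insert_of_mem (Cond.mem_supp.2 hk)
      have hne : (e k : Z) ≠ e l := fun h => hkl (e.injective (Subtype.ext h))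
      exact haR (hd _ (hA3' _ (e k).2).1 _ (hA3' _ (e l).2).1 hne a (key k hcon.1)
        (key l hcon.2)))
    (by
      intro a ha k l
      rw [hP2 k a (fun h => (hA3' _ (e k).2).2.1 (h ▸ ha)),
        hP2 l a (fun h => (hA3' _ (e l).2).2.1 (h ▸ ha))]
      exact (hA3' _ (e k).2).2.2.1 a ha _ (e l).2)
  -- below one of the conditions, decide the value
  obtain ⟨k0, -, t0, ht0, ht0k⟩ := hq0 q0 (le_refl' _ _) 0
  have ht0r : @LE.le (PP Γ) _ t0 r := le_trans' low_univ (le_trans' low_univ ht0k (hPs k0)) (hs (e k0))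
  have ht0q : @LE.le (PP Γ) _ t0 q := ht0r.trans hr
  obtain ⟨t1, ht1, v, hv⟩ := IsFun.total (down_IsFun _ q (hg i0) t0 ht0q) n
  obtain ⟨k, hk, t2, ht2, ht2k⟩ := hq0 (PP.toC t1) (le_trans' low_univ ht1 ht0) (v + 1)
  have hk' : v < k := hk
  have ht21 : @LE.le (PP Γ) _ t2 t1 := ht2
  have ht2s : @LE.le (PP Γ) _ t2 (s (e k)) := le_trans' low_univ ht2k (hPs k)
  obtain ⟨hi, hN⟩ := hAi _ (hA1A (hA3' _ (e k).2).1)
  obtain ⟨t3, ht3, h3⟩ := mem_fimp.1 (hs2 (e k) n) t2 ht2s (by rw [hN]; exact hnN)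
  obtain ⟨t4, ht4, a, h4⟩ := mem_fex.1 h3 t3 le_rfl
  obtain ⟨t5, ht5, b, h5, h6, h7⟩ := mem_fex.1 h4 t4 le_rfl
  have ht52 : @LE.le (PP Γ) _ t5 t2 := ht5.trans (ht4.trans ht3)
  have h7' : a ≤ b := h7
  -- the value of the Cohen real is `k`
  have hlen : ((PP.toC (s (e k)) (lc (e k))).stem ++ List.replicate (n - L0) ∅).length = n := by
    rw [List.length_append, List.length_replicate, (hA3' _ (e k).2).2.2.2]
    omega
  have hPk : (P k : PP Γ) ∈ fnN Γ (lc (e k)) (fun _ s => s.card) n k := by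
    refine ⟨?_, ?_⟩
    · show n < (P k (lc (e k))).stem.length
      rw [hP1]
      show n < (_ ++ [Finset.range k]).length
      rw [List.length_append, hlen]
      simp
    · show ((P k (lc (e k))).stem.getD n ∅).card = k
      rw [hP1]
      show ((_ ++ [Finset.range k]).getD n ∅).card = k
      rw [List.getD_append_right _ _ _ _ hlen.le, hlen]
      simp
  have h12 : le Γ Set.univ (PP.toC t5) (P k) := le_trans' low_univ ht52 ht2k
  have h8 : t5 ∈ meets (P := PP Γ) (fnN Γ (lc (e k)) (fun _ s => s.card) n k) :=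
    meets_of_le (P := PP Γ) (p := t5) (s := P k) hPk h12
  have h9 : a = k := IsFun.unique (P := PP Γ) (p := t5)
    (isFun_fnN (Γ := Γ) (lc (e k)) (fun _ s => s.card) t5) h5 h8
  have h10 : b = v := by
    have ht1q : t1 ≤ q := le_trans' low_univ ht1 ht0q
    have h11 : t5 ∈ IsFun (g i0) := down_IsFun _ q (hg i0) t5 ((ht52.trans ht21).trans ht1q)
    rw [hi] at h6
    exact IsFun.unique h11 h6 (down_meets _ _ hv _ (ht52.trans ht21))
  omega

end Pool.Agent.W5h83.NF
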