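import Pool.Agent.W5h83.NF.Names

/-!
# The limit of a sequence of conditions with the same stems

In an iteration of localization forcings with bounds (over Cohen reals), every sequence of
conditions with the same stems on a common root, and with disjoint supports outside the root, has
a limit: a condition which forces that infinitely many members of the sequence are in the generic
filter.
-/

set_option autoImplicit false
set_option linter.unusedSectionVars false

namespace Pool.Agent.W5h83.NF

open Classical Cardinal Filter Pool.Agent.Helper669.Forcing Pool.Agent.TH777.Y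

variable {M I W : Type} {bd : I → Option (ℕ → ℕ)} [LinearOrder W] [WellFoundedLT W]
  {Γ : Par M W bd}

/-- parameters for which limits exist: the coordinates of rank `⊥` are Cohen coordinates, there is
only one coordinate of each other rank, it is bounded, and the promises at this coordinate are
all names for reals which are added below this rank -/
structure Nice [OrderBot W] (Γ : Par M W bd) : Prop extends Good Γ where
  inj : ∀ i j, Γ.rk i = Γ.rk j → Γ.rk i ≠ ⊥ → i = j
  full : ∀ j, Γ.rk j ≠ ⊥ → ∃ b, bd j = some b ∧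
    ∀ X : Nm M bd, Supp (below Γ (Γ.rk j)) X → ∃ z, Γ.req j z = some X

/-- disjoint supports -/
theorem avoid {p : ℕ → Cond M bd} (F : Finset I)
    (h : ∀ i ∈ F, ∀ k l, k ≠ l → p k i = CV.top ∨ p l i = CV.top) :
    ∃ K, ∀ k, K ≤ k → ∀ i ∈ F, p k i = CV.top := by
  induction F using Finset.induction_on with
  | empty => exact ⟨0, fun k _ i hi => absurd hi (Finset.notMem_empty _)⟩
  | insert i F _ ih =>
    obtain ⟨K, hK⟩ := ih fun i' hi' => h i' (Finset.mem_insert_of_mem hi')
    by_cases hex : ∃ k0, p k0 i ≠ CV.top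
    · obtain ⟨k0, hk0⟩ := hex
      refine ⟨max K (k0 + 1), fun k hk i' hi' => ?_⟩
      rcases Finset.mem_insert.1 hi' with rfl | hi'
      · have hne : k0 ≠ k := by
          have := (le_max_right K (k0 + 1)).trans hk
          omega
        rcases h i' (Finset.mem_insert_self _ _) k0 k hne with h1 | h1
        · exact absurd h1 hk0
        · exact h1
      · exact hK k ((le_max_left _ _).trans hk) i' hi'
    · push Not at hex
      refine ⟨K, fun k hk i' hi' => ?_⟩
      rcases Finset.mem_insert.1 hi' with rfl | hi'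
      · exact hex k
      · exact hK k hk i' hi'

/-- the case of a root with Cohen coordinates only -/
theorem lim_base [OrderBot W] (hG : Nice Γ) (p : ℕ → Cond M bd) (R : Finset I)
    (hbot : ∀ j ∈ R, Γ.rk j = ⊥) (T : Set I)
    (h1 : ∀ i ∈ T, i ∉ R → ∀ k l, k ≠ l → p k i = CV.top ∨ p l i = CV.top)
    (h2 : ∀ j ∈ R, ∀ k l, (p k j).stem = (p l j).stem) :
    ∃ q : Cond M bd, ∀ q', le Γ T q' q → ∀ K, ∃ k, K ≤ k ∧
      ∃ r, le Γ T r q' ∧ le Γ T r (p k) := by
  let q : Cond M bd := ⟨fun i => if i ∈ R then ⟨(p 0 i).stem, ∅⟩ else CV.top, by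
    refine (Finset.finite_toSet R).subset fun i hi => ?_
    by_contra hcon
    exact hi (if_neg hcon), fun i b hb => by
      show Legit b (if i ∈ R then _ else _)
      by_cases hi : i ∈ R
      · rw [(hG.bot i (hbot i hi)).1] at hb
        exact absurd hb (by simp)
      · rw [if_neg hi]
        exact legit_top _⟩
  have hq : ∀ i ∈ R, q i = ⟨(p 0 i).stem, ∅⟩ := fun i hi => if_pos hi
  refine ⟨q, fun q' hq' K => ?_⟩
  obtain ⟨K1, hK1⟩ := avoid (p := p) (q'.supp.filter fun i => i ∈ T ∧ i ∉ R) fun i hi => by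
    obtain ⟨_, h3, h4⟩ := Finset.mem_filter.1 hi
    exact h1 i h3 h4
  let k := max K K1
  let f : I → CV M := fun i => if i ∈ R then ⟨(q' i).stem, (q' i).pr ∪ (p k i).pr⟩ else
    if q' i ≠ CV.top then q' i else p k i
  have hf1 : ∀ i ∈ R, f i = ⟨(q' i).stem, (q' i).pr ∪ (p k i).pr⟩ := fun i hi => if_pos hi
  have hf2 : ∀ i ∉ R, f i = if q' i ≠ CV.top then q' i else p k i := fun i hi => if_neg hi
  have hfin : {i | f i ≠ CV.top}.Finite := by
    refine (((Finset.finite_toSet R).union q'.2.1).union (p k).2.1).subset fun i hi => ?_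
    have hi' : f i ≠ CV.top := hi
    by_cases hc1 : i ∈ R
    · exact Or.inl (Or.inl hc1)
    rw [hf2 i hc1] at hi'
    by_cases hc2 : q' i ≠ CV.top
    · exact Or.inl (Or.inr hc2)
    · rw [if_neg hc2] at hi'
      exact Or.inr hi'
  have hleg : ∀ i b, bd i = some b → Legit b (f i) := by
    intro i b hb
    by_cases hc1 : i ∈ R
    · rw [(hG.bot i (hbot i hc1)).1] at hb
      exact absurd hb (by simp)
    rw [hf2 i hc1]
    by_cases hc2 : q' i ≠ CV.top
    · rw [if_pos hc2]
      exact q'.legit hb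
    · rw [if_neg hc2]
      exact (p k).legit hb
  obtain ⟨r, hr⟩ : ∃ r : Cond M bd, ∀ i, r i = f i := ⟨⟨f, hfin, hleg⟩, fun _ => rfl⟩
  refine ⟨k, le_max_left _ _, r, fun i hi => ?_, fun i hi => ?_⟩
  · by_cases hc1 : i ∈ R
    · refine ext_noreq (hG.bot i (hbot i hc1)).2 ?_ ?_
      · rw [hr, hf1 i hc1]
      · rw [hr, hf1 i hc1]
        exact Finset.subset_union_left
    · by_cases hc2 : q' i ≠ CV.top
      · refine ext_of_eq ?_
        rw [hr, hf2 i hc1, if_pos hc2]
      · exact ext_top (not_not.1 hc2)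
  · by_cases hc1 : i ∈ R
    · refine ext_noreq (hG.bot i (hbot i hc1)).2 ?_ ?_
      · rw [hr, hf1 i hc1]
        have h3 := ext_stem (hq' i hi)
        rw [hq i hc1] at h3
        rw [h2 i hc1 k 0]
        exact h3
      · rw [hr, hf1 i hc1]
        exact Finset.subset_union_right
    · by_cases hc2 : q' i ≠ CV.top
      · refine ext_top (hK1 k (le_max_right _ _) i ?_)
        exact Finset.mem_filter.2 ⟨Cond.mem_supp.2 hc2, hi, hc1⟩
      · refine ext_of_eq ?_
        rw [hr, hf2 i hc1, if_neg hc2]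

/-- limits -/
theorem lim [OrderBot W] (hG : Nice Γ) (hccc : CCC Γ) (p : ℕ → Cond M bd) (n : ℕ) :
    ∀ (R : Finset I) (_ : R.card = n) (T : Set I) (_ : Low Γ T)
      (_ : ∀ i ∈ T, i ∉ R → ∀ k l, k ≠ l → p k i = CV.top ∨ p l i = CV.top)
      (_ : ∀ j ∈ R, ∀ k l, (p k j).stem = (p l j).stem),
    ∃ q : Cond M bd, ∀ q', le Γ T q' q → ∀ K, ∃ k, K ≤ k ∧
      ∃ r, le Γ T r q' ∧ le Γ T r (p k) := by
  induction n with
  | zero =>
    intro R hR T hT h1 h2
    refine lim_base hG p R (fun j hj => ?_) T h1 h2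
    rw [Finset.card_eq_zero] at hR
    rw [hR] at hj
    exact absurd hj (Finset.notMem_empty _)
  | succ n ih =>
    intro R hR T hT h1 h2
    by_cases hbot : ∀ j ∈ R, Γ.rk j = ⊥
    · exact lim_base hG p R hbot T h1 h2
    push Not at hbot
    obtain ⟨j0, hj0, hj0b⟩ := hbot
    obtain ⟨j, hjR, hjmax⟩ := Finset.exists_max_image R Γ.rk ⟨j0, hj0⟩
    have hjb : Γ.rk j ≠ ⊥ := by
      intro h
      have := hjmax j0 hj0
      rw [h] at this
      exact hj0b (le_bot_iff.1 this)
    have hRe : (R.erase j).card = n := by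
      rw [Finset.card_erase_of_mem hjR]; omega
    by_cases hjT : j ∈ T
    swap
    · exact ih (R.erase j) hRe T hT
        (fun i hi hi' => h1 i hi fun h => hi' (Finset.mem_erase.2 ⟨fun h' => hjT (h' ▸ hi), h⟩))
        (fun i hi => h2 i (Finset.mem_of_mem_erase hi))
    obtain ⟨S, hSdef⟩ : ∃ S : Set I, S = below Γ (Γ.rk j) := ⟨_, rfl⟩
    have hS : Low Γ S := hSdef ▸ low_below _
    have hmemS : ∀ i, i ∈ S ↔ Γ.rk i < Γ.rk j := fun i => by rw [hSdef]; rfl
    have hST : S ⊆ T := fun i hi => hT j hjT i ((hmemS i).1 hi)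
    have hjS : j ∉ S := fun h => lt_irrefl _ ((hmemS j).1 h)
    obtain ⟨q1, hq1⟩ := ih (R.erase j) hRe S hS
      (fun i hi hi' => h1 i (hST hi) fun h => hi' (Finset.mem_erase.2
        ⟨fun h' => hjS (h' ▸ hi), h⟩))
      (fun i hi => h2 i (Finset.mem_of_mem_erase hi))
    obtain ⟨b, hbd, hfull⟩ := hG.full j hjb
    have hstem : ∀ k, (p k j).stem = (p 0 j).stem := fun k => h2 j hjR k 0
    obtain ⟨m, hmdef⟩ : ∃ m, m = (p 0 j).stem.length := ⟨_, rfl⟩
    have hm : ∀ k, (p k j).pr.card ≤ m := fun k => by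
      have := ((p k).legit hbd).1
      rwa [hstem k, ← hmdef] at this
    obtain ⟨X, hXs, hX⟩ := limit_names (Γ := Γ) (S := S) (j := j) (b := b) (p := p) hccc hS hm
      (q1 := q1) hq1
    choose z hz using fun c => hfull (X c) (by rw [← hSdef]; exact hXs c)
    -- the condition
    let pr0 : Finset M := (Finset.range m).image z
    have hpr0 : pr0.card ≤ m := by
      refine Finset.card_image_le.trans ?_
      rw [Finset.card_range]
    let fq : I → CV M := fun i => if i ∈ S then q1 i else if i = j then ⟨(p 0 j).stem, pr0⟩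
      else CV.top
    have hfq1 : ∀ i ∈ S, fq i = q1 i := fun i hi => if_pos hi
    have hfq2 : fq j = ⟨(p 0 j).stem, pr0⟩ := by
      simp only [fq, if_neg hjS, if_true]
    have hfq3 : ∀ i ∉ S, i ≠ j → fq i = CV.top := by
      intro i hi hij
      simp only [fq, if_neg hi, if_neg hij]
    have hfqfin : {i | fq i ≠ CV.top}.Finite := by
      refine (q1.2.1.union (Set.finite_singleton j)).subset fun i hi => ?_
      have hi' : fq i ≠ CV.top := hi
      by_cases hc1 : i ∈ S
      · rw [hfq1 i hc1] at hi'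
        exact Or.inl hi'
      by_cases hc2 : i = j
      · exact Or.inr hc2
      · exact absurd (hfq3 i hc1 hc2) hi'
    have hfqleg : ∀ i b, bd i = some b → Legit b (fq i) := by
      intro i b' hb'
      by_cases hc1 : i ∈ S
      · rw [hfq1 i hc1]
        exact q1.legit hb'
      by_cases hc2 : i = j
      · subst hc2
        rw [hfq2]
        refine ⟨?_, ((p 0).legit hb').2⟩
        show pr0.card ≤ (p 0 i).stem.length
        rw [← hmdef]
        exact hpr0
      · rw [hfq3 i hc1 hc2]
        exact legit_top _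
    obtain ⟨q, hq⟩ : ∃ q : Cond M bd, ∀ i, q i = fq i := ⟨⟨fq, hfqfin, hfqleg⟩, fun _ => rfl⟩
    refine ⟨q, fun q' hq' K => ?_⟩
    have hq'q1 : le Γ S q' q1 := le_congr hS (fun _ _ => rfl)
      (fun i hi => by rw [hq, hfq1 i hi]) (le_mono hST hq')
    have hext : ext Γ j q' q := hq' j hjT
    rw [ext_iff, ← hSdef, hq, hfq2] at hext
    obtain ⟨hext1, hext2, hext3⟩ := hext
    -- disjointness of the supports
    obtain ⟨K1, hK1⟩ := avoid (p := p) (q'.supp.filter fun i => i ∈ T ∧ i ∉ R) fun i hi => by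
      obtain ⟨_, h3, h4⟩ := Finset.mem_filter.1 hi
      exact h1 i h3 h4
    -- decide the promises
    obtain ⟨ℓ, hℓ⟩ : ∃ ℓ, ℓ = (q' j).stem.length := ⟨_, rfl⟩
    have hmℓ : m ≤ ℓ := by
      rw [hℓ, hmdef]
      exact hext1.length_le
    obtain ⟨t0, ht0, hd⟩ := Val.decideF (Γ := Γ) hS ((q' j).pr ×ˢ Finset.range (ℓ + m))
      (fun z : M × ℕ => Γ.req j z.1) (fun z => z.2) q'
    have hd' : ∀ k i, ∃ v, k ∈ (q' j).pr → i < ℓ + m → ∀ x,
        Γ.req j k = some x → Val (le Γ S) t0 x i v := by
      intro k i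
      by_cases hk : k ∈ (q' j).pr ∧ i < ℓ + m ∧ ∃ x, Γ.req j k = some x
      · obtain ⟨hk, hi, x, hx⟩ := hk
        obtain ⟨v, hv⟩ := hd (k, i) (Finset.mem_product.2 ⟨hk, Finset.mem_range.2 hi⟩) x hx
        refine ⟨v, fun _ _ x' hx' => ?_⟩
        rw [hx] at hx'
        rw [← Option.some_injective _ hx']
        exact hv
      · exact ⟨0, fun h4 h5 x hx => absurd ⟨h4, h5, x, hx⟩ hk⟩
    choose v hv using hd'
    obtain ⟨k, hk, r0, hr0, hr0k, hval⟩ := hX t0 (le_trans' hS ht0 hq'q1) (ℓ + m) (max K K1)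
    let e : ℕ → Finset ℕ := fun i => ((q' j).pr.image fun a => v a i).filter fun n => n < b i
    obtain ⟨st, hst⟩ : ∃ st, st = (q' j).stem ++ (List.range m).map fun s => e (ℓ + s) := ⟨_, rfl⟩
    have hstlen : st.length = ℓ + m := by
      rw [hst, List.length_append, List.length_map, List.length_range, ← hℓ]
    have hst1 : ∀ i < ℓ, st.getD i ∅ = (q' j).stem.getD i ∅ := by
      intro i hi
      rw [hst]
      exact List.getD_append _ _ _ _ (hℓ ▸ hi)
    have hst2 : ∀ i, ℓ ≤ i → i < ℓ + m → st.getD i ∅ = e i := by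
      intro i hi hi'
      rw [hst, getD_append_map _ (hℓ ▸ hi) (hℓ ▸ hi'), ← hℓ]
      have h3 : ℓ + (i - ℓ) = i := by omega
      rw [h3]
    have hkK1 : K1 ≤ k := (le_max_right _ _).trans hk
    have hlegV : ∀ b', bd j = some b' → Legit b' (⟨st, (q' j).pr ∪ (p k j).pr⟩ : CV M) := by
      intro b' hb'
      have hbb : b' = b := Option.some_injective _ (hb'.symm.trans hbd)
      subst hbb
      have hl := q'.legit hbd
      refine ⟨?_, fun i hi => ?_⟩
      · show ((q' j).pr ∪ (p k j).pr).card ≤ st.length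
        have h3 := Finset.card_union_le (q' j).pr (p k j).pr
        have h4 := hl.1
        have h5 := hm k
        omega
      · have hi' : i < st.length := hi
        show (st.getD i ∅).card ≤ i ∧ ∀ a ∈ st.getD i ∅, a < b' i
        by_cases hiℓ : i < ℓ
        · rw [hst1 i hiℓ]
          exact hl.2 i (hℓ ▸ hiℓ)
        · rw [hst2 i (not_lt.1 hiℓ) (by omega)]
          have h3 : (e i).card ≤ (q' j).pr.card :=
            (Finset.card_filter_le _ _).trans Finset.card_image_le
          have h4 := hl.1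
          refine ⟨by omega, fun a ha => (Finset.mem_filter.1 ha).2⟩
    let f : I → CV M := fun i => if i ∈ S then r0 i else if i = j then
      ⟨st, (q' j).pr ∪ (p k j).pr⟩ else if q' i ≠ CV.top then q' i else p k i
    have hf1 : ∀ i ∈ S, f i = r0 i := fun i hi => if_pos hi
    have hf2 : f j = ⟨st, (q' j).pr ∪ (p k j).pr⟩ := by
      simp only [f, if_neg hjS, if_true]
    have hf3 : ∀ i ∉ S, i ≠ j → f i = if q' i ≠ CV.top then q' i else p k i := by
      intro i hi hij
      simp only [f, if_neg hi, if_neg hij]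
    have hfin : {i | f i ≠ CV.top}.Finite := by
      refine (((r0.2.1.union (Set.finite_singleton j)).union q'.2.1).union (p k).2.1).subset
        fun i hi => ?_
      have hi' : f i ≠ CV.top := hi
      by_cases hc1 : i ∈ S
      · rw [hf1 i hc1] at hi'
        exact Or.inl (Or.inl (Or.inl hi'))
      by_cases hc2 : i = j
      · exact Or.inl (Or.inl (Or.inr hc2))
      rw [hf3 i hc1 hc2] at hi'
      by_cases hc3 : q' i ≠ CV.top
      · exact Or.inl (Or.inr hc3)
      · rw [if_neg hc3] at hi'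
        exact Or.inr hi'
    have hleg : ∀ i b, bd i = some b → Legit b (f i) := by
      intro i b' hb'
      by_cases hc1 : i ∈ S
      · rw [hf1 i hc1]
        exact r0.legit hb'
      by_cases hc2 : i = j
      · subst hc2
        rw [hf2]
        exact hlegV b' hb'
      rw [hf3 i hc1 hc2]
      by_cases hc3 : q' i ≠ CV.top
      · rw [if_pos hc3]
        exact q'.legit hb'
      · rw [if_neg hc3]
        exact (p k).legit hb'
    obtain ⟨r, hr⟩ : ∃ r : Cond M bd, ∀ i, r i = f i := ⟨⟨f, hfin, hleg⟩, fun _ => rfl⟩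
    have hrr0 : le Γ S r r0 := le_of_eq hS fun i hi => by rw [hr, hf1 i hi]
    have hother : ∀ i ∈ T, i ∉ S → i ≠ j → i ∉ R := by
      intro i hi hiS hij hiR
      have h3 : ¬ Γ.rk i < Γ.rk j := fun h => hiS ((hmemS i).2 h)
      have h4 : Γ.rk i = Γ.rk j := le_antisymm (hjmax i hiR) (not_lt.1 h3)
      exact hij (hG.inj i j h4 (by rw [h4]; exact hjb))
    refine ⟨k, (le_max_left _ _).trans hk, r, fun i hi => ?_, fun i hi => ?_⟩
    · by_cases hc1 : i ∈ S
      · exact le_trans' hS (le_trans' hS hrr0 hr0) ht0 i hc1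
      by_cases hc2 : i = j
      · subst hc2
        rw [ext_iff, hr, hf2, ← hSdef]
        refine ⟨by rw [hst]; exact List.prefix_append _ _, Finset.subset_union_left, ?_⟩
        intro a ha x hx i' hi' hi'' t ht n hn hnb
        rw [← hℓ] at hi'
        have hi3 : i' < ℓ + m := hstlen ▸ hi''
        show n ∈ st.getD i' ∅
        rw [hst2 i' hi' hi3]
        have h5 := (hv a i' ha hi3 x hx).mono hS (le_trans' hS ht (le_trans' hS hrr0 hr0))
        exact Finset.mem_filter.2 ⟨Finset.mem_image.2 ⟨a, ha, (hn.unique h5).symm⟩, hnb b hbd⟩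
      · by_cases hc3 : q' i ≠ CV.top
        · refine ext_of_eq ?_
          rw [hr, hf3 i hc1 hc2, if_pos hc3]
        · exact ext_top (not_not.1 hc3)
    · by_cases hc1 : i ∈ S
      · exact le_trans' hS hrr0 hr0k i hc1
      by_cases hc2 : i = j
      · subst hc2
        rw [ext_iff, hr, hf2, ← hSdef]
        refine ⟨?_, Finset.subset_union_right, ?_⟩
        · show (p k i).stem <+: st
          rw [hstem k, hst]
          exact hext1.trans (List.prefix_append _ _)
        intro a ha x hx i' hi' hi'' t ht n hn hnb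
        have hi' : (p 0 i).stem.length ≤ i' := by
          rw [← hstem k]
          exact hi'
        have hi3 : i' < ℓ + m := hstlen ▸ hi''
        show n ∈ st.getD i' ∅
        obtain ⟨w, hw, hw'⟩ := hval i' hi3 a ha x hx
        have h5 : n = w := hn.unique (hw.mono hS (le_trans' hS ht hrr0))
        subst h5
        obtain ⟨c, hc, hcv⟩ := hw' (hnb b hbd)
        have hzc : z c ∈ pr0 := Finset.mem_image_of_mem z (Finset.mem_range.2 hc)
        by_cases hiℓ : i' < ℓ
        · rw [hst1 i' hiℓ]
          exact hext3 (z c) hzc (X c) (hz c) i' hi' (hℓ ▸ hiℓ) r0 (le_trans' hS hr0 ht0) n hcv hnb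
        · rw [hst2 i' (not_lt.1 hiℓ) hi3]
          have h6 := (hv (z c) i' (hext2 hzc) hi3 (X c) (hz c)).mono hS hr0
          exact Finset.mem_filter.2 ⟨Finset.mem_image.2 ⟨z c, hext2 hzc, (hcv.unique h6).symm⟩,
            hnb b hbd⟩
      · have hiR := hother i hi hc1 hc2
        by_cases hc3 : q' i ≠ CV.top
        · refine ext_top (hK1 k hkK1 i ?_)
          exact Finset.mem_filter.2 ⟨Cond.mem_supp.2 hc3, hi, hiR⟩
        · refine ext_of_eq ?_
          rw [hr, hf3 i hc1 hc2, if_neg hc3]

end Pool.Agent.W5h83.NF
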