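import Pool.Agent.W5h83.NF.Forced
import Pool.Agent.W5h83.SS.Ineq
import Pool.Agent.TH777.Y.Book

/-!
# A model in which few slaloms capture all bounded functions, and no small family dominates
-/

set_option autoImplicit false
set_option linter.unusedSectionVars false

namespace Pool.Agent.W5h83.NF

open Classical Cardinal Filter Pool.Agent.Helper669.Forcing Pool.Agent.TH777.Y
open Pool.Agent.W5h83.SS

/-- the growth function needed for the Luzin property -/
def BG (b : ℕ → ℕ) (n : ℕ) : ℕ := (EE b n)^[n] (2 ^ n + 1)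

theorem EE_mono {b : ℕ → ℕ} {L L' N N' : ℕ} (hL : L ≤ L') (hN : N ≤ N') :
    EE b L N ≤ EE b L' N' := by
  unfold EE
  refine Nat.mul_le_mul hN (Nat.pow_le_pow_right (by norm_num) ?_)
  refine Finset.sum_le_sum_of_subset (Finset.range_subset_range.2 (Nat.mul_le_mul hN hL))

theorem EE_iter_le {b : ℕ → ℕ} {L L' : ℕ} (hL : L ≤ L') (r N : ℕ) :
    (EE b L)^[r] N ≤ (EE b L')^[r] N := by
  induction r with
  | zero => exact le_rfl
  | succ r ih =>
    rw [Function.iterate_succ_apply', Function.iterate_succ_apply']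
    exact EE_mono hL ih

theorem grow (b : ℕ → ℕ) (L r : ℕ) : ∃ᶠ n in atTop, (EE b L)^[r] (2 ^ n + 1) ≤ BG b n := by
  rw [frequently_atTop]
  intro a
  refine ⟨max a (max L r), le_max_left _ _, ?_⟩
  set n := max a (max L r) with hn
  have hLn : L ≤ n := (le_max_left _ _).trans (le_max_right _ _)
  have hrn : r ≤ n := (le_max_right _ _).trans (le_max_right _ _)
  refine (EE_iter_le hLn r _).trans ?_
  have hmono : Monotone fun r => (EE b n)^[r] (2 ^ n + 1) := monotone_nat_of_le_succ fun r => by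
    rw [Function.iterate_succ_apply']
    exact le_EE _ _ _
  exact hmono hrn

theorem exists_forcing (b : ℕ → ℕ) : ∃ (Ω P : Type) (_ : Preorder P), #Ω = ℵ₁ ∧ Nonempty P ∧
    (∀ A : Set P, (∀ p ∈ A, ∀ q ∈ A, p ≠ q → ¬ ∃ r, r ≤ p ∧ r ≤ q) → A.Countable) ∧
    ∀ p : P, p ∈ fand (CapAllN P Ω b) (NotDomAllN P Ω) := by
  let W : Type := (Order.succ ℵ₀ : Cardinal.{0}).ord.ToType
  let Λ : Type := Set W
  have hW : #W = ℵ₁ := by
    rw [← Cardinal.succ_aleph0]
    exact Cardinal.mk_ord_toType _
  have hW0 : ℵ₀ < #W := by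
    rw [hW]; exact aleph0_lt_aleph_one
  have hΛ : #Λ = 2 ^ #W := Cardinal.mk_set
  have hWΛ : #W < #Λ := by
    rw [hΛ]; exact Cardinal.cantor _
  have hΛ0 : ℵ₀ ≤ #Λ := hW0.le.trans hWΛ.le
  have hpow : #Λ ^ ℵ₀ = #Λ := by
    rw [hΛ, ← Cardinal.power_mul, Cardinal.mul_eq_left hW0.le hW0.le aleph0_ne_zero]
  let bdc : Unit → Option (ℕ → ℕ) := fun _ => some b
  have hI : #(Ix Λ Unit W Unit) ≤ #Λ := by
    refine (Cardinal.mk_le_of_injective ixEmb_inj).trans ?_
    simp only [Cardinal.mk_sum, Cardinal.mk_prod, Cardinal.lift_id, Cardinal.mk_fintype,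
      Fintype.card_unit, Nat.cast_one, one_mul, mul_one]
    calc #Λ + #W ≤ #Λ + #Λ := add_le_add le_rfl hWΛ.le
      _ = #Λ := add_eq_self hΛ0
  have hN : #(NmI Λ Λ W Unit bdc) ≤ #Λ := mk_Nm hΛ0 hpow le_rfl hI
  obtain ⟨e, he⟩ : ∃ e : Λ → NmI Λ Λ W Unit bdc, Function.Surjective e := by
    obtain ⟨g⟩ := hN
    have : Nonempty (NmI Λ Λ W Unit bdc) := ⟨fun _ _ => none⟩
    exact ⟨Function.invFun g, Function.invFun_surjective g.injective⟩
  let act : Unit → Λ → Prop := fun _ _ => True
  let nm : Unit → Unit → Λ → NmI Λ Λ W Unit bdc := fun _ _ z => e z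
  have hG0 : Good (GI act nm) := good_GI
  have hG : Nice (GI act nm) := by
    refine ⟨hG0, ?_, ?_⟩
    · intro i j hij hi
      cases i with
      | co z => exact absurd rfl hi
      | it c β a =>
        cases j with
        | co z =>
          have : ((β : W) : WithBot W) = ⊥ := hij
          exact absurd this WithBot.coe_ne_bot
        | it c' β' a' =>
          have h1 : ((β : W) : WithBot W) = β' := hij
          rw [WithBot.coe_inj.1 h1]
    · intro j hj
      cases j with
      | co z => exact absurd rfl hj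
      | it c β a =>
        refine ⟨b, rfl, fun X hX => ?_⟩
        obtain ⟨z, hz⟩ := he X
        refine ⟨z, ?_⟩
        have h2 : Supp {i | rkI i < (β : WithBot W)} (nm c a z) := by
          show Supp {i | rkI i < (β : WithBot W)} (e z)
          rw [hz]
          exact hX
        rw [req_it (act := act) (c := c) (z := z) trivial h2]
        exact congrArg some hz
  have hL : Luz (GI act nm) ℵ₁ (BG b) fun n => 2 ^ n := by
    refine luz hG0 isRegular_aleph_one aleph0_lt_aleph_one b (BG b) (fun n => 2 ^ n) ?_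
      (grow b)
    intro j b' hj
    cases j with
    | co z => exact absurd hj (by simp [bdI])
    | it c β a =>
      have hb : b' = b := (Option.some_injective _ hj).symm
      rw [hb]
      exact Or.inl fun i => le_rfl
  have hinjΛ : Function.Injective (fun k : Λ => (Ix.co k : Ix Λ Unit W Unit)) := by
    intro k k' h
    injection h
  have hccc : CCC (GI act nm) :=
    ccc_of_luz hL (K := Λ) (by rw [← hW]; exact hWΛ.le) (fun k => .co k) hinjΛ (fun _ => rfl)
  refine ⟨W, PP (GI act nm), inferInstance, hW, ⟨(Cond.one : Cond Λ (bdI Λ W Unit bdc))⟩,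
    ?_, ?_⟩
  · intro A hA
    by_contra hcon
    obtain ⟨p, hp, q, hq, hpq, r, h1, h2⟩ := hccc A hcon
    exact hA p hp q hq hpq ⟨r, h1, h2⟩
  · intro p
    refine ⟨?_, ?_⟩
    · refine forced_capAll hG.supp hccc W _ (fun β => .it () β ()) (fun _ => rfl)
        (fun x => ?_) p
      obtain ⟨β, hβ⟩ := exists_rank (ι := Unit) (c := ℵ₀) (by
        rw [mk_fintype]; simp) le_rfl
        (fun ι hι f => bounded le_rfl hι f) (fun _ => x)
      obtain ⟨z, hz⟩ := he x
      refine ⟨β, z, ?_⟩
      have h2 : Supp {i | rkI i < (β : WithBot W)} (nm () () z) := by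
        show Supp {i | rkI i < (β : WithBot W)} (e z)
        rw [hz]
        exact hβ ()
      rw [req_it (act := act) (c := ()) (z := z) trivial h2]
      exact congrArg some hz
    · refine forced_notDomAll hG hccc W (fun k => .co k) hinjΛ (fun _ => rfl) ?_ p
      intro F
      refine large_fiber' hW0 hWΛ ?_ F
      rw [mk_prod, lift_id, lift_id, mk_nat]
      exact (mul_aleph0_eq hW0.le).le

/-- The sentence implies that `𝔰𝔰_c < 𝔡`. -/
theorem ssc_lt_dNum {Ω : Type} (h : PsiFor Ω) : Pool.Agent.V11242.SS.ssc < dNum :=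
  (ssc_le h.1).trans_lt (lt_dNum h.2)

end Pool.Agent.W5h83.NF
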