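import Pool.Agent.TH777.Y.Ext

/-!
# Names for limits of sequences of promises

Let `p k` be a sequence of conditions such that `q1` forces infinitely many of them to be in the
generic filter (below some rank). The promises which `p k` makes at a bounded coordinate have, by
compactness, a limit in the extension. Here names for the limit are found.
-/

set_option autoImplicit false
set_option linter.unusedSectionVars false

namespace Pool.Agent.W5h83.NF

open Classical Cardinal Filter Pool.Agent.Helper669.Forcing Pool.Agent.TH777.Y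

variable {M I W : Type} {bd : I → Option (ℕ → ℕ)} [LinearOrder W] [WellFoundedLT W]
  {Γ : Par M W bd}

/-- the restriction of a condition -/
noncomputable def rst (S : Set I) (t : Cond M bd) : Cond M bd := mix S t Cond.one

theorem rst_notMem (S : Set I) (t : Cond M bd) {i : I} (h : i ∉ S) : rst S t i = CV.top :=
  mix_notMem _ _ h

theorem rst_mem (S : Set I) (t : Cond M bd) {i : I} (h : i ∈ S) : rst S t i = t i :=
  mix_mem _ _ h

theorem rst_le {S : Set I} (hS : Low Γ S) (t : Cond M bd) : le Γ S (rst S t) t :=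
  le_of_eq hS fun _ hi => rst_mem S t hi

theorem le_rst {S : Set I} (hS : Low Γ S) (t : Cond M bd) : le Γ S t (rst S t) :=
  le_of_eq hS fun _ hi => (rst_mem S t hi).symm

/-- maximal antichains, of labelled conditions -/
theorem exists_antichain {β : Type} (hccc : CCC Γ) {S : Set I} (Φ : Set (Cond M bd × β))
    (hΦ : ∀ x ∈ Φ, ∀ i ∉ S, x.1 i = CV.top) :
    ∃ A ⊆ Φ, A.Countable ∧ (∀ x ∈ A, ∀ y ∈ A, x ≠ y → ¬ Cmp (le Γ S) x.1 y.1) ∧
      ∀ x ∈ Φ, ∃ y ∈ A, Cmp (le Γ S) x.1 y.1 := by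
  have : ∃ A, Maximal (fun A : Set (Cond M bd × β) => A ⊆ Φ ∧
      ∀ x ∈ A, ∀ y ∈ A, x ≠ y → ¬ Cmp (le Γ S) x.1 y.1) A := by
    apply zorn_subset {A : Set (Cond M bd × β) | A ⊆ Φ ∧
      ∀ x ∈ A, ∀ y ∈ A, x ≠ y → ¬ Cmp (le Γ S) x.1 y.1}
    intro c hc hchain
    refine ⟨⋃₀ c, ⟨Set.sUnion_subset fun A hA => (hc hA).1, ?_⟩,
      fun s hs => Set.subset_sUnion_of_mem hs⟩
    rintro p ⟨A, hA, hpA⟩ q ⟨B, hB, hqB⟩ hne
    rcases hchain.total hA hB with h | h
    · exact (hc hB).2 p (h hpA) q hqB hne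
    · exact (hc hA).2 p hpA q (h hqB) hne
  obtain ⟨A, ⟨h1, h2⟩, hmax⟩ := this
  refine ⟨A, h1, ?_, h2, ?_⟩
  · by_contra hcon
    have hinj : Set.InjOn Prod.fst A := by
      intro x hx y hy hxy
      by_contra hne
      exact h2 x hx y hy hne ⟨x.1, le_refl' S _, by rw [hxy]; exact le_refl' S _⟩
    have h3 : ¬ (Prod.fst '' A).Countable := fun h =>
      hcon (Set.countable_of_injective_of_countable_image hinj h)
    obtain ⟨p, ⟨x, hx, rfl⟩, q, ⟨y, hy, rfl⟩, hne, r, hr1, hr2⟩ := hccc _ h3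
    exact h2 x hx y hy (fun h => hne (by rw [h]))
      ⟨r, le_mono (Set.subset_univ _) hr1, le_mono (Set.subset_univ _) hr2⟩
  · intro x hx
    by_contra hcon
    push Not at hcon
    have hxA : x ∉ A := fun h => hcon x h ⟨x.1, le_refl' S _, le_refl' S _⟩
    apply hxA
    refine hmax (y := insert x A) ⟨Set.insert_subset hx h1, ?_⟩ (Set.subset_insert x A)
      (Set.mem_insert x A)
    rintro y (rfl | hy) z (rfl | hz) hne
    · exact absurd rfl hne
    · exact hcon z hz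
    · rintro ⟨r, hr1, hr2⟩
      exact hcon y hy ⟨r, hr2, hr1⟩
    · exact h2 y hy z hz hne

section Lim

variable (Γ) (S : Set I) (j : I) (b : ℕ → ℕ) (p : ℕ → Cond M bd)

/-- `r` is stronger than `p k`, and it decides the promises of `p k`, with the values in `σ` -/
def Dc (r : Cond M bd) (k : ℕ) (σ : List (Finset ℕ)) : Prop :=
  le Γ S r (p k) ∧ ∀ i < σ.length, ∀ z ∈ (p k j).pr, ∀ x, Γ.req j z = some x →
    ∃ v, Val (le Γ S) r x i v ∧ (v < b i → v ∈ σ.getD i ∅)

/-- `t` forces that there are infinitely many `k` with the values in `σ` -/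
def Io (t : Cond M bd) (σ : List (Finset ℕ)) : Prop :=
  ∀ t', le Γ S t' t → ∀ K, ∃ k, K ≤ k ∧ ∃ r, le Γ S r t' ∧ Dc Γ S j b p r k σ

variable {Γ S j b p}

theorem Io.mono (hS : Low Γ S) {t t' : Cond M bd} {σ : List (Finset ℕ)} (h : Io Γ S j b p t σ)
    (ht : le Γ S t' t) : Io Γ S j b p t' σ := fun t'' ht'' => h t'' (le_trans' hS ht'' ht)

theorem getD_concat_lt {σ : List (Finset ℕ)} {e : Finset ℕ} {i : ℕ} (h : i < σ.length) :
    (σ ++ [e]).getD i ∅ = σ.getD i ∅ := List.getD_append _ _ _ _ h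

theorem getD_concat_self {σ : List (Finset ℕ)} {e : Finset ℕ} :
    (σ ++ [e]).getD σ.length ∅ = e := by
  rw [List.getD_append_right _ _ _ _ le_rfl]
  simp

theorem split (hS : Low Γ S) {m : ℕ} (hm : ∀ k, (p k j).pr.card ≤ m) {t : Cond M bd}
    {σ : List (Finset ℕ)} (h : Io Γ S j b p t σ) :
    ∃ t', le Γ S t' t ∧ ∃ e : Finset ℕ, e.card ≤ m ∧ Io Γ S j b p t' (σ ++ [e]) := by
  by_contra hcon
  push Not at hcon
  have key : ∀ F : Finset (Finset ℕ), (∀ e ∈ F, e.card ≤ m) → ∃ t', le Γ S t' t ∧ ∃ K,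
      ∀ e ∈ F, ∀ k, K ≤ k → ∀ r, le Γ S r t' → ¬ Dc Γ S j b p r k (σ ++ [e]) := by
    intro F
    induction F using Finset.induction_on with
    | empty => exact fun _ => ⟨t, le_refl' S t, 0, fun e he => absurd he (Finset.notMem_empty _)⟩
    | insert e F _ ih =>
      intro hF
      obtain ⟨t1, ht1, K1, h1⟩ := ih fun e' he' => hF e' (Finset.mem_insert_of_mem he')
      have h2 := hcon t1 ht1 e (hF e (Finset.mem_insert_self _ _))
      unfold Io at h2
      push Not at h2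
      obtain ⟨t2, ht2, K2, h3⟩ := h2
      refine ⟨t2, le_trans' hS ht2 ht1, max K1 K2, fun e' he' k hk r hr => ?_⟩
      rcases Finset.mem_insert.1 he' with rfl | he'
      · exact h3 k ((le_max_right _ _).trans hk) r hr
      · exact h1 e' he' k ((le_max_left _ _).trans hk) r (le_trans' hS hr ht2)
  obtain ⟨t1, ht1, K, h1⟩ := key (((Finset.range (b σ.length)).powerset).filter
    fun e => e.card ≤ m) fun e he => (Finset.mem_filter.1 he).2
  obtain ⟨k, hk, r, hr, hrk, hr2⟩ := h t1 ht1 K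
  obtain ⟨r', hr', hd⟩ := Val.decideF (Γ := Γ) hS (p k j).pr (fun z => Γ.req j z)
    (fun _ => σ.length) r
  have hd' : ∀ z, ∃ v, z ∈ (p k j).pr → ∀ x, Γ.req j z = some x →
      Val (le Γ S) r' x σ.length v := by
    intro z
    by_cases hz : z ∈ (p k j).pr ∧ ∃ x, Γ.req j z = some x
    · obtain ⟨hz, x, hx⟩ := hz
      obtain ⟨v, hv⟩ := hd z hz x hx
      refine ⟨v, fun _ x' hx' => ?_⟩
      rw [hx] at hx'
      rw [← Option.some_injective _ hx']
      exact hv
    · exact ⟨0, fun h1 x hx => absurd ⟨h1, x, hx⟩ hz⟩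
  choose v hv using hd'
  let e : Finset ℕ := ((p k j).pr.image v).filter fun a => a < b σ.length
  have hecard : e.card ≤ m :=
    (Finset.card_filter_le _ _).trans (Finset.card_image_le.trans (hm k))
  refine h1 e ?_ k hk r' (le_trans' hS hr' hr) ⟨le_trans' hS hr' hrk, ?_⟩
  · refine Finset.mem_filter.2 ⟨Finset.mem_powerset.2 fun a ha => ?_, hecard⟩
    exact Finset.mem_range.2 (Finset.mem_filter.1 ha).2
  · intro i hi z hz x hx
    rw [List.length_append, List.length_singleton] at hi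
    rcases Nat.lt_succ_iff_lt_or_eq.1 hi with hi | rfl
    · obtain ⟨w, hw, hw'⟩ := hr2 i hi z hz x hx
      refine ⟨w, hw.mono hS hr', fun h => ?_⟩
      rw [getD_concat_lt hi]
      exact hw' h
    · refine ⟨v z, hv z hz x hx, fun h => ?_⟩
      rw [getD_concat_self]
      exact Finset.mem_filter.2 ⟨Finset.mem_image_of_mem _ hz, h⟩

variable (Γ S j b p) in
/-- a level of the tree of labelled conditions -/
structure Lev (m : ℕ) (q1 : Cond M bd) (n : ℕ) (A : Set (Cond M bd × List (Finset ℕ))) :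
    Prop where
  len : ∀ x ∈ A, x.2.length = n
  supp : ∀ x ∈ A, ∀ i ∉ S, x.1 i = CV.top
  le1 : ∀ x ∈ A, le Γ S x.1 q1
  io : ∀ x ∈ A, Io Γ S j b p x.1 x.2
  card : ∀ x ∈ A, ∀ e ∈ x.2, e.card ≤ m
  cnt : A.Countable
  anti : ∀ x ∈ A, ∀ y ∈ A, x ≠ y → ¬ Cmp (le Γ S) x.1 y.1
  dense : ∀ t, le Γ S t q1 → ∃ x ∈ A, Cmp (le Γ S) t x.1

theorem Lev.next (hccc : CCC Γ) (hS : Low Γ S) {m : ℕ} (hm : ∀ k, (p k j).pr.card ≤ m)
    {q1 : Cond M bd} {n : ℕ} {A : Set (Cond M bd × List (Finset ℕ))}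
    (hA : Lev Γ S j b p m q1 n A) :
    ∃ A', Lev Γ S j b p m q1 (n + 1) A' ∧ ∀ y ∈ A', ∃ x ∈ A, le Γ S y.1 x.1 ∧ x.2 <+: y.2 := by
  let Φ : Set (Cond M bd × List (Finset ℕ)) := {y | (∀ i ∉ S, y.1 i = CV.top) ∧
    Io Γ S j b p y.1 y.2 ∧ ∃ x ∈ A, le Γ S y.1 x.1 ∧ ∃ e : Finset ℕ, e.card ≤ m ∧
      y.2 = x.2 ++ [e]}
  obtain ⟨A', hA'Φ, hcnt, hanti, hdense⟩ := exists_antichain hccc (S := S) Φ fun y hy => hy.1
  refine ⟨A', ⟨?_, fun y hy => (hA'Φ hy).1, ?_, fun y hy => (hA'Φ hy).2.1, ?_, hcnt, hanti, ?_⟩, ?_⟩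
  · intro y hy
    obtain ⟨_, _, x, hx, _, e, _, he⟩ := hA'Φ hy
    rw [he, List.length_append, hA.len x hx]
    rfl
  · intro y hy
    obtain ⟨_, _, x, hx, hle, _⟩ := hA'Φ hy
    exact le_trans' hS hle (hA.le1 x hx)
  · intro y hy e' he'
    obtain ⟨_, _, x, hx, _, e, hec, he⟩ := hA'Φ hy
    rw [he] at he'
    rcases List.mem_append.1 he' with h | h
    · exact hA.card x hx e' h
    · rw [List.mem_singleton.1 h]
      exact hec
  · intro t ht
    obtain ⟨x, hx, r, hrt, hrx⟩ := hA.dense t ht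
    obtain ⟨t', ht', e, hec, hio⟩ := split hS hm ((hA.io x hx).mono hS hrx)
    obtain ⟨y, hy, s, hs1, hs2⟩ := hdense (rst S t', x.2 ++ [e])
      ⟨fun i hi => rst_notMem S t' hi, hio.mono hS (rst_le hS t'), x, hx,
        le_trans' hS (rst_le hS t') (le_trans' hS ht' hrx), e, hec, rfl⟩
    exact ⟨y, hy, s, le_trans' hS hs1 (le_trans' hS (rst_le hS t') (le_trans' hS ht' hrt)), hs2⟩
  · intro y hy
    obtain ⟨_, _, x, hx, hle, e, _, he⟩ := hA'Φ hy
    exact ⟨x, hx, hle, by rw [he]; exact List.prefix_append _ _⟩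

/-- names for the limit -/
theorem limit_names (hccc : CCC Γ) (hS : Low Γ S) {m : ℕ} (hm : ∀ k, (p k j).pr.card ≤ m)
    {q1 : Cond M bd} (hq1 : ∀ t, le Γ S t q1 → ∀ K, ∃ k, K ≤ k ∧ ∃ r, le Γ S r t ∧
      le Γ S r (p k)) :
    ∃ X : ℕ → Nm M bd, (∀ c, Supp S (X c)) ∧ ∀ t, le Γ S t q1 → ∀ L K, ∃ k, K ≤ k ∧
      ∃ r, le Γ S r t ∧ le Γ S r (p k) ∧ ∀ i < L, ∀ z ∈ (p k j).pr, ∀ x, Γ.req j z = some x →
        ∃ v, Val (le Γ S) r x i v ∧ (v < b i → ∃ c < m, Val (le Γ S) r (X c) i v) := by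
  -- the levels
  have h0 : Lev Γ S j b p m q1 0 {(rst S q1, [])} := by
    refine ⟨?_, ?_, ?_, ?_, ?_, Set.countable_singleton _, ?_, ?_⟩
    · rintro x rfl
      rfl
    · rintro x rfl i hi
      exact rst_notMem S q1 hi
    · rintro x rfl
      exact rst_le hS q1
    · rintro x rfl t' ht' K
      obtain ⟨k, hk, r, hr, hrk⟩ := hq1 t' (le_trans' hS ht' (rst_le hS q1)) K
      exact ⟨k, hk, r, hr, hrk, fun i hi => absurd hi (Nat.not_lt_zero _)⟩
    · rintro x rfl e he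
      exact absurd he List.not_mem_nil
    · rintro x rfl y rfl hne
      exact absurd rfl hne
    · intro t ht
      exact ⟨_, rfl, t, le_refl' S t, le_trans' hS ht (le_rst hS q1)⟩
  have hnext : ∀ (n : ℕ) (A : Set (Cond M bd × List (Finset ℕ))), ∃ A',
      Lev Γ S j b p m q1 n A → (Lev Γ S j b p m q1 (n + 1) A' ∧
        ∀ y ∈ A', ∃ x ∈ A, le Γ S y.1 x.1 ∧ x.2 <+: y.2) := by
    intro n A
    by_cases hA : Lev Γ S j b p m q1 n A
    · obtain ⟨A', h⟩ := hA.next hccc hS hm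
      exact ⟨A', fun _ => h⟩
    · exact ⟨∅, fun h => absurd h hA⟩
  choose nx hnx using hnext
  let A : ℕ → Set (Cond M bd × List (Finset ℕ)) := fun n =>
    Nat.rec {(rst S q1, [])} (fun n A => nx n A) n
  have hAs : ∀ n, A (n + 1) = nx n (A n) := fun n => rfl
  have hA : ∀ n, Lev Γ S j b p m q1 n (A n) := by
    intro n
    induction n with
    | zero => exact h0
    | succ n ih =>
      rw [hAs]
      exact (hnx n (A n) ih).1
  have hAn : ∀ n, ∀ y ∈ A (n + 1), ∃ x ∈ A n, le Γ S y.1 x.1 ∧ x.2 <+: y.2 := by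
    intro n y hy
    rw [hAs] at hy
    exact (hnx n (A n) (hA n)).2 y hy
  have hAle : ∀ n' n, n ≤ n' → ∀ y ∈ A n', ∃ x ∈ A n, le Γ S y.1 x.1 ∧ x.2 <+: y.2 := by
    intro n'
    induction n' with
    | zero =>
      intro n hn y hy
      obtain rfl : n = 0 := Nat.le_zero.1 hn
      exact ⟨y, hy, le_refl' S _, List.prefix_refl _⟩
    | succ n' ih =>
      intro n hn y hy
      rcases Nat.le_succ_iff.1 hn with hn | rfl
      · obtain ⟨x, hx, h1, h2⟩ := hAn n' y hy
        obtain ⟨x', hx', h1', h2'⟩ := ih n hn x hx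
        exact ⟨x', hx', le_trans' hS h1 h1', h2'.trans h2⟩
      · exact ⟨y, hy, le_refl' S _, List.prefix_refl _⟩
  -- the enumerations
  have hne : ∀ n, (A n).Nonempty := by
    intro n
    obtain ⟨x, hx, -⟩ := (hA n).dense q1 (le_refl' S q1)
    exact ⟨x, hx⟩
  have hen : ∀ n, ∃ g : ℕ → Cond M bd × List (Finset ℕ), A n = Set.range g := fun n =>
    (hA n).cnt.exists_eq_range (hne n)
  choose g hg using hen
  have hgA : ∀ n m, g n m ∈ A n := fun n m => by
    rw [hg n]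
    exact Set.mem_range_self m
  let X : ℕ → Nm M bd := fun c n m =>
    some ((g (n + 1) m).1, ((g (n + 1) m).2.getD n ∅).toList.getD c 0)
  have hX : ∀ c n t v, le Γ S t q1 → Val (le Γ S) t (X c) n v →
      ∃ x ∈ A (n + 1), le Γ S t x.1 ∧ v = (x.2.getD n ∅).toList.getD c 0 := by
    intro c n t v ht hv
    rcases hv with ⟨m', u, h1, h2, -⟩ | ⟨-, h2⟩
    · have h3 := Option.some_injective _ h1
      rw [Prod.ext_iff] at h3
      refine ⟨g (n + 1) m', (hgA (n + 1) m'), ?_, h3.2.symm⟩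
      rw [show (g (n + 1) m').1 = u from h3.1]
      exact h2
    · exfalso
      obtain ⟨x, hx, hc⟩ := (hA (n + 1)).dense t ht
      rw [hg (n + 1)] at hx
      obtain ⟨m', rfl⟩ := hx
      exact h2 m' _ _ rfl hc
  -- values of the names below elements of the levels
  have hXv : ∀ n, ∀ x ∈ A (n + 1), ∀ c t, le Γ S t x.1 →
      Val (le Γ S) t (X c) n ((x.2.getD n ∅).toList.getD c 0) := by
    intro n x hx c t ht
    have hx' := hx
    rw [hg (n + 1)] at hx'
    have hex : ∃ m', g (n + 1) m' = x := hx'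
    refine Or.inl ⟨Nat.find hex, x.1, ?_, ht, fun m' hm' u' v' hu' hc => ?_⟩
    · show some _ = some _
      rw [Nat.find_spec hex]
    · have h3 := Option.some_injective _ hu'
      rw [Prod.ext_iff] at h3
      have h4 : (g (n + 1) m').1 = u' := h3.1
      rw [← h4] at hc
      have h5 : g (n + 1) m' = x := by
        by_contra hne
        obtain ⟨r, hr1, hr2⟩ := hc
        exact (hA (n + 1)).anti _ ((hgA (n + 1) m')) x hx hne ⟨r, hr2, le_trans' hS hr1 ht⟩
      exact Nat.find_min hex hm' h5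
  refine ⟨X, ?_, ?_⟩
  · intro c n m' u v hu i hi
    have h3 := Option.some_injective _ hu
    rw [Prod.ext_iff] at h3
    have h4 : (g (n + 1) m').1 = u := h3.1
    rw [← h4]
    exact (hA (n + 1)).supp _ ((hgA (n + 1) m')) i hi
  · intro t ht L K
    obtain ⟨x, hx, s, hst, hsx⟩ := (hA L).dense t ht
    obtain ⟨k, hk, r, hr, hrk, hr2⟩ := (hA L).io x hx s hsx K
    refine ⟨k, hk, r, le_trans' hS hr hst, hrk, fun i hi z hz x' hx' => ?_⟩
    obtain ⟨v, hv, hv'⟩ := hr2 i (by rw [(hA L).len x hx]; exact hi) z hz x' hx'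
    refine ⟨v, hv, fun hvb => ?_⟩
    have hvm := hv' hvb
    obtain ⟨y, hy, hxy, hyp⟩ := hAle L (i + 1) hi x hx
    have hlen : y.2.length = i + 1 := (hA (i + 1)).len y hy
    have h6 : x.2.getD i ∅ = y.2.getD i ∅ := getD_prefix hyp (by omega)
    rw [h6] at hvm
    have hcard : (y.2.getD i ∅).card ≤ m := by
      refine (hA (i + 1)).card y hy _ ?_
      rw [List.getD_eq_getElem _ _ (by omega)]
      exact List.getElem_mem _
    obtain ⟨c, hc, hcv⟩ := List.getElem_of_mem (Finset.mem_toList.2 hvm)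
    refine ⟨c, by rw [Finset.length_toList] at hc; omega, ?_⟩
    have h7 := hXv i y hy c r (le_trans' hS hr (le_trans' hS hsx hxy))
    rw [List.getD_eq_getElem _ _ hc, hcv] at h7
    exact h7

end Lim

end Pool.Agent.W5h83.NF
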